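import Pool.Agent.H78.CUR.Stmts

/-!
# Module FIN: the two notions of finite sets agree
-/

set_option linter.unusedVariables false
set_option synthInstance.maxSize 100000

namespace CUR

open SW

theorem cur_fin (hn : NUStmt) : FINStmt := by
  intro N _ _ x
  have hom : ∀ w : N, IsOm w ↔ w = om := (hn N).2.2.2.2
  have hF : FinFacts N := fin N
  constructor
  · rintro ⟨w, n, f, hw, hnw, h1, h2, h3, h4⟩
    rw [hom] at hw
    subst hw
    simp only [pairIn_iff, isOP_iff] at h1 h2 h3 h4
    let y : N := sep n (fun j => ∃ b, E b x ∧ E (opair b j) f)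
    have hy : Fnt y := hF.sub (hF.nat hnw) (fun z hz => by
      simp only [y] at hz
      rw [mem_sep] at hz
      exact hz.1)
    let g : N → N := fun j => the (fun b => E b x ∧ E (opair b j) f)
    have hg : Fn1 g := by
      simp only [g]
      infer_instance
    have hgb : ∀ b j, E b x → E (opair b j) f → g j = b := by
      intro b j hb hbj
      exact the_eq ⟨hb, hbj⟩ (fun z hz => h4 z b j hz.2 hbj)
    have := hF.img g hg hy
    have hx : img y g = x := by
      refine ext fun z => ?_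
      rw [mem_img' hg]
      constructor
      · rintro ⟨j, hj, rfl⟩
        simp only [y] at hj
        rw [mem_sep] at hj
        obtain ⟨-, b, hb, hbj⟩ := hj
        rw [hgb b j hb hbj]
        exact hb
      · intro hz
        obtain ⟨j, hj⟩ := h2 z hz
        obtain ⟨b, j', hb, hj', e⟩ := h1 _ hj
        obtain ⟨e1, e2⟩ := opair_inj.1 e
        subst e1
        subst e2
        refine ⟨j, ?_, (hgb z j hz hj).symm⟩
        simp only [y]
        rw [mem_sep]
        exact ⟨hj', z, hz, hj⟩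
    rwa [hx] at this
  · rintro ⟨n, hno, f, h1, h2, h3, h4⟩
    have hmem : ∀ z : N, E z (sep (prod x n) (fun z => ∃ b j, z = opair b j ∧ E (opair j b) f)) ↔
        ∃ b j, E b x ∧ E j n ∧ z = opair b j ∧ E (opair j b) f := by
      intro z
      rw [mem_sep]
      constructor
      · rintro ⟨hz, b, j, rfl, hbj⟩
        rw [mem_prod] at hz
        exact ⟨b, j, hz.1, hz.2, rfl, hbj⟩
      · rintro ⟨b, j, hb, hj, rfl, hbj⟩
        exact ⟨mem_prod.2 ⟨hb, hj⟩, b, j, rfl, hbj⟩
    refine ⟨om, n, sep (prod x n) (fun z => ∃ b j, z = opair b j ∧ E (opair j b) f),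
      (hom _).2 rfl, hno, ?_, ?_, ?_, ?_⟩
    · intro z hz
      rw [hmem] at hz
      obtain ⟨b, j, hb, hj, rfl, -⟩ := hz
      exact ⟨b, j, hb, hj, by rw [isOP_iff]⟩
    · intro b hb
      obtain ⟨i, hi, hib⟩ := h2 b hb
      refine ⟨i, ?_⟩
      rw [pairIn_iff, hmem]
      exact ⟨b, i, hb, hi, rfl, hib⟩
    · intro b j j' hj hj'
      rw [pairIn_iff, hmem] at hj hj'
      obtain ⟨b1, j1, hb1, hj1, e1, h1'⟩ := hj
      obtain ⟨b2, j2, hb2, hj2, e2, h2'⟩ := hj'
      obtain ⟨rfl, rfl⟩ := opair_inj.1 e1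
      obtain ⟨rfl, rfl⟩ := opair_inj.1 e2
      exact h4 j j' b hj1 hj2 hb1 h1' h2'
    · intro b b' j hj hj'
      rw [pairIn_iff, hmem] at hj hj'
      obtain ⟨b1, j1, hb1, hj1, e1, h1'⟩ := hj
      obtain ⟨b2, j2, hb2, hj2, e2, h2'⟩ := hj'
      obtain ⟨rfl, rfl⟩ := opair_inj.1 e1
      obtain ⟨rfl, rfl⟩ := opair_inj.1 e2
      exact h3 j b b' hj1 h1' h2'

end CUR
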