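import Pool.Agent.H78.CUR.Stmts

/-!
# Module SP3a: every circle of the space is compact
-/

set_option linter.unusedVariables false
set_option synthInstance.maxSize 100000

namespace CUR

open SW

theorem cur_sp3a (hn : NUStmt) (hr1 : R1Stmt) (hr2 : R2Stmt) (hfin : FINStmt)
    (hsp0 : SP0Stmt) : SP3aStmt := by
  intro N _ _ c D Y d τ hS C hC hcov n
  have hR1 := hr1 N c
  have hR2 := hr2 N c
  have hF : FinFacts N := fin N
  obtain ⟨hnom, hninj, hnlt, -, hom⟩ := hn N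
  obtain ⟨hu1, hu2⟩ := hsp0 hn N c D
  obtain ⟨θ0, G0, hG0⟩ := D.ne n
  obtain ⟨z0, hz0'⟩ := hR2.rat 0
  obtain ⟨z1, hz1'⟩ := hR2.rat 1
  have hz0 : IsCutOf z0 (0 : ℝ) := by simpa using hz0'
  have hz1 : IsCutOf z1 (1 : ℝ) := by simpa using hz1'
  -- inclusion of cuts is the order
  have hle : ∀ (x y : N) (r s : ℝ), IsCutOf x r → IsCutOf y s → (Sub x y ↔ r ≤ s) := by
    intro x y r s hx hy
    have := hR1.lt y x s r hy hx
    constructor
    · intro h
      by_contra h2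
      push Not at h2
      obtain ⟨z, hz, hz'⟩ := this.1 h2
      exact hz' (h z hz)
    · intro h z hz
      by_contra h2
      exact absurd (this.2 ⟨z, hz, h2⟩) (not_lt.2 h)
  -- the covered parameters
  let Cov : N → Prop := fun t => ∃ F, Fnt F ∧ (∀ U, E U F → E U C) ∧
    ∀ s G', E s (KS c) → Sub z0 s → Sub s t →
      E (opair (opair (nu n) G0) (opair G' s)) D.tr → ∃ U, E U F ∧ E (opair (nu n) G') U
  have hCov : Cl (fun t : N => Sub z0 t ∧ Sub t z1 ∧ Cov t) := by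
    simp only [Cov]
    infer_instance
  let A : N := sep (KS c) (fun t => Sub z0 t ∧ Sub t z1 ∧ Cov t)
  have hA : ∀ (t : N) (r : ℝ), IsCutOf t r → (E t A ↔ 0 ≤ r ∧ r ≤ 1 ∧ Cov t) := by
    intro t r ht
    simp only [A]
    rw [mem_sep' hCov, hle _ _ _ _ hz0 ht, hle _ _ _ _ ht hz1]
    constructor
    · exact fun h => h.2
    · exact fun h => ⟨(hR1.memK t).2 ⟨r, ht⟩, h⟩
  have hAK : ∀ t : N, E t A → ∃ r, IsCutOf t r := by
    intro t ht
    simp only [A] at ht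
    rw [mem_sep' hCov] at ht
    exact (hR1.memK t).1 ht.1
  -- what the cover does, in terms of coordinates
  have hcovD : ∀ (F t : N) (r : ℝ), IsCutOf t r → ((∀ s G', E s (KS c) → Sub z0 s → Sub s t →
      E (opair (opair (nu n) G0) (opair G' s)) D.tr → ∃ U, E U F ∧ E (opair (nu n) G') U) ↔
      ∀ (u : N) (s : ℝ) G', IsCutOf u s → 0 ≤ s → s ≤ r → D.K n (θ0 + (s : T)) G' →
        ∃ U, E U F ∧ E (opair (nu n) G') U) := by
    intro F t r ht
    constructor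
    · intro h u s G' hu h0 h1 hK
      refine h u G' ((hR1.memK u).2 ⟨s, hu⟩) ((hle _ _ _ _ hz0 hu).2 h0)
        ((hle _ _ _ _ hu ht).2 h1) ?_
      rw [D.memtr]
      exact ⟨θ0, s, hG0, hu, hK⟩
    · intro h u G' hu h0 h1 htr
      rw [D.memtr] at htr
      obtain ⟨θ, s, hK, hus, hK'⟩ := htr
      have := D.uniqT hK hG0
      subst this
      exact h u s G' hus ((hle _ _ _ _ hz0 hus).1 h0) ((hle _ _ _ _ hus ht).1 h1) hK'
  -- the set of real numbers
  let AR : Set ℝ := {r | ∃ z, E z A ∧ IsCutOf z r}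
  have hz0A : E z0 A := by
    rw [hA z0 0 hz0]
    refine ⟨le_refl _, zero_le_one, ?_⟩
    obtain ⟨U, hU, hU'⟩ := hcov (opair (nu n) G0) ((hS.memY _).2 ⟨some (n, θ0), G0, rfl, hG0⟩)
    refine ⟨ins U emp, hF.ins hF.emp, ?_, ?_⟩
    · intro V hV
      rw [mem_ins] at hV
      rcases hV with hV | rfl
      · exact absurd hV (not_mem_emp _)
      · exact hU
    · rw [hcovD _ z0 0 hz0]
      intro u s G' hu h0 h1 hK
      have hs : s = 0 := le_antisymm h1 h0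
      subst hs
      rw [AddCircle.coe_zero, add_zero] at hK
      have := D.uniqG hK hG0
      subst this
      exact ⟨U, by simp, hU'⟩
  have h0AR : (0 : ℝ) ∈ AR := ⟨z0, hz0A, hz0⟩
  have hAR1 : ∀ r ∈ AR, 0 ≤ r ∧ r ≤ 1 := by
    rintro r ⟨z, hz, hzr⟩
    rw [hA z r hzr] at hz
    exact ⟨hz.1, hz.2.1⟩
  have hbdd : BddAbove AR := ⟨1, fun r hr => (hAR1 r hr).2⟩
  have hlub : IsLUB AR (sSup AR) := isLUB_csSup ⟨0, h0AR⟩ hbdd
  set σ : ℝ := sSup AR with hσdef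
  have hσ0 : 0 ≤ σ := hlub.1 h0AR
  have hσ1 : σ ≤ 1 := hlub.2 fun r hr => (hAR1 r hr).2
  have hsup : IsCutOf (sUn A) σ := hR1.sup A σ hAK hlub
  obtain ⟨Gs, hGs⟩ := D.add hG0 hsup
  obtain ⟨U, hU, hU'⟩ := hcov (opair (nu n) Gs)
    ((hS.memY _).2 ⟨some (n, θ0 + (σ : T)), Gs, rfl, hGs⟩)
  obtain ⟨-, hUo⟩ := (hS.memτ U).1 (hC U hU)
  obtain ⟨ε, hε, hball⟩ := hUo _ (some (n, θ0 + (σ : T))) hU' ⟨Gs, rfl, hGs⟩
  have hball' : ∀ (s : ℝ) G', |σ - s| < ε → D.K n (θ0 + (s : T)) G' → E (opair (nu n) G') U := by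
    intro s G' hs hK
    apply hball _ (some (n, θ0 + (s : T))) ⟨G', rfl, hK⟩
    simp only [dZ, if_true]
    refine lt_of_le_of_lt (min_le_left _ _) ?_
    have : (θ0 + (σ : T)) - (θ0 + (s : T)) = ((σ - s : ℝ) : T) := by
      rw [AddCircle.coe_sub]; abel
    rw [this]
    refine lt_of_le_of_lt ?_ hs
    exact QuotientAddGroup.norm_mk_le_norm
  obtain ⟨r, hrA, hr1, hr2⟩ := hlub.exists_between (sub_lt_self σ hε)
  obtain ⟨t, htA, htr⟩ := hrA
  obtain ⟨hr0, -, F, hFf, hFC, hFc⟩ := (hA t r htr).1 htA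
  rw [hcovD F t r htr] at hFc
  -- the enlarged family
  have hF' : Fnt (ins U F) := hF.ins hFf
  have hF'C : ∀ V, E V (ins U F) → E V C := by
    intro V hV
    rw [mem_ins] at hV
    rcases hV with hV | rfl
    · exact hFC V hV
    · exact hU
  have hF'c : ∀ (u : N) (s : ℝ) G', IsCutOf u s → 0 ≤ s → s < σ + ε → D.K n (θ0 + (s : T)) G' →
        ∃ V, E V (ins U F) ∧ E (opair (nu n) G') V := by
    intro u s G' hu h0 h1 hK
    rcases le_or_gt s r with h | h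
    · obtain ⟨V, hV, hV'⟩ := hFc u s G' hu h0 h hK
      exact ⟨V, by rw [mem_ins]; exact Or.inl hV, hV'⟩
    · refine ⟨U, by simp, hball' s G' ?_ hK⟩
      rw [abs_lt]
      constructor <;> linarith
  have hmem : ∀ (t : N) (r : ℝ), IsCutOf t r → 0 ≤ r → r ≤ 1 → r < σ + ε → E t A := by
    intro t r ht h0 h1 h2
    rw [hA t r ht]
    refine ⟨h0, h1, ins U F, hF', hF'C, ?_⟩
    rw [hcovD _ t r ht]
    intro u s G' hu h3 h4 hK
    exact hF'c u s G' hu h3 (lt_of_le_of_lt h4 h2) hK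
  have hσeq : σ = 1 := by
    by_contra hne
    have hlt : σ < 1 := lt_of_le_of_ne hσ1 hne
    obtain ⟨q, hq1, hq2⟩ := exists_rat_btwn (lt_min hlt (by linarith : σ < σ + ε))
    obtain ⟨zq, hzq⟩ := hR2.rat q
    have hq3 := lt_of_lt_of_le hq2 (min_le_left _ _)
    have hq4 := lt_of_lt_of_le hq2 (min_le_right _ _)
    have := hmem zq q hzq (by linarith) hq3.le hq4
    have := hlub.1 ⟨zq, this, hzq⟩
    linarith
  -- conclusion
  refine ⟨ins U F, (hfin N _).2 hF', hF'C, ?_⟩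
  rintro z θ ⟨G', rfl, hK⟩
  obtain ⟨t', s, hts, hθ⟩ := D.sub hG0 hK
  obtain ⟨q, hq⟩ := hR2.rat (-(⌊s⌋ : ℚ))
  obtain ⟨u, hu⟩ := hR2.add t' q _ _ hts hq
  have hfr : s + ((-(⌊s⌋ : ℚ) : ℚ) : ℝ) = Int.fract s := by
    push_cast
    rw [Int.fract]; ring
  rw [hfr] at hu
  have hK2 : D.K n (θ0 + ((Int.fract s : ℝ) : T)) G' := by
    have : ((Int.fract s : ℝ) : T) = (s : T) := by
      rw [Int.fract, AddCircle.coe_sub]
      have h1 : (((⌊s⌋ : ℤ) : ℝ) : T) = 0 := by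
        rw [AddCircle.coe_eq_zero_iff]
        exact ⟨⌊s⌋, by simp⟩
      rw [h1, sub_zero]
    rw [this, ← hθ]
    exact hK
  exact hF'c u (Int.fract s) G' hu (Int.fract_nonneg s) (by
    have := Int.fract_lt_one s
    linarith) hK2

end CUR
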