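import Pool.Agent.H78.CUR.Stmts

/-!
# Module SP4: the space is not separable
-/

set_option linter.unusedVariables false
set_option synthInstance.maxSize 100000

namespace CUR

open SW

theorem cur_sp4 (hn : NUStmt) (hsp0 : SP0Stmt) : SP4Stmt := by
  intro N _ _ c D Y d τ hS
  rintro ⟨D', hDY, ⟨w, f, hw, h1, h2, h3, h4⟩, hdense⟩
  obtain ⟨hnom, hninj, hnlt, -, hom⟩ := hn N
  obtain ⟨hu1, hu2⟩ := hsp0 hn N c D
  rw [hom] at hw
  subst hw
  simp only [pairIn_iff, isOP_iff] at h1 h2 h3 h4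
  -- membership in `D.C`
  have hC : ∀ (n : ℕ) (G : N), E (opair (nu n) G) D.C ↔ ∃ θ, D.K n θ G := by
    intro n G
    rw [D.memC]
    constructor
    · rintro ⟨m, θ, G', e, hK⟩
      obtain ⟨e1, e2⟩ := opair_inj.1 e
      have := hninj _ _ e1
      subst this
      subst e2
      exact ⟨θ, hK⟩
    · rintro ⟨θ, hK⟩
      exact ⟨n, θ, G, rfl, hK⟩
  have hmeet : ∀ n : ℕ, ∃ G : N, E (opair (nu n) G) D.C ∧ E (opair (nu n) G) D' := by
    intro n
    have hmem : ∀ z : N, E z (sep D.C (fun z => ∃ G, z = opair (nu n) G)) ↔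
        E z D.C ∧ ∃ G, z = opair (nu n) G := fun z => mem_sep
    obtain ⟨x, hx, hx'⟩ := hdense (sep D.C (fun z => ∃ G, z = opair (nu n) G)) (by
      rw [hS.memτ]
      constructor
      · intro z hz
        rw [hmem] at hz
        obtain ⟨hz1, G, rfl⟩ := hz
        obtain ⟨θ, hθ⟩ := (hC n G).1 hz1
        rw [hS.memY]
        exact ⟨some (n, θ), G, rfl, hθ⟩
      · intro z y hz hy
        rw [hmem] at hz
        obtain ⟨hz1, G, rfl⟩ := hz
        obtain ⟨θ, hθ⟩ := (hC n G).1 hz1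
        have hy' := hu1 _ _ (some (n, θ)) hy ⟨G, rfl, hθ⟩
        subst hy'
        have hpos : (0 : ℝ) < 1 / ((n : ℝ) + 1) := by positivity
        refine ⟨1 / ((n : ℝ) + 1), hpos, ?_⟩
        intro z' y' hz' hd
        rcases y' with _ | ⟨m, η⟩
        · simp only [dZ] at hd
          exact absurd hd (lt_irrefl _)
        · obtain ⟨G', rfl, hG'⟩ := hz'
          by_cases hnm : n = m
          · subst hnm
            rw [hmem]
            exact ⟨(hC n G').2 ⟨η, hG'⟩, G', rfl⟩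
          · simp only [dZ, if_neg hnm] at hd
            exact absurd (lt_of_le_of_lt (le_max_left _ _) hd) (lt_irrefl _)) (by
      obtain ⟨θ, G, hG⟩ := D.ne n
      refine ⟨opair (nu n) G, ?_⟩
      rw [hmem]
      exact ⟨(hC n G).2 ⟨θ, hG⟩, G, rfl⟩)
    rw [hmem] at hx
    obtain ⟨hx1, G, rfl⟩ := hx
    exact ⟨G, hx1, hx'⟩
  -- the choice function
  have hmem : ∀ z : N, E z (sep D.C (fun z => E z D' ∧ ∃ v G i, z = opair v G ∧
      E (opair z i) f ∧ ∀ G' i', E (opair v G') D.C → E (opair v G') D' →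
        E (opair (opair v G') i') f → ¬ E i' i)) ↔ E z D.C ∧ (E z D' ∧ ∃ v G i, z = opair v G ∧
      E (opair z i) f ∧ ∀ G' i', E (opair v G') D.C → E (opair v G') D' →
        E (opair (opair v G') i') f → ¬ E i' i) := fun z => mem_sep
  apply D.nochoice
  refine ⟨sep D.C (fun z => E z D' ∧ ∃ v G i, z = opair v G ∧
      E (opair z i) f ∧ ∀ G' i', E (opair v G') D.C → E (opair v G') D' →
        E (opair (opair v G') i') f → ¬ E i' i), fun n => ?_⟩
  classical
  have hex : ∃ k : ℕ, ∃ G : N, E (opair (nu n) G) D.C ∧ E (opair (nu n) G) D' ∧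
      E (opair (opair (nu n) G) (nu k)) f := by
    obtain ⟨G, hG1, hG2⟩ := hmeet n
    obtain ⟨j, hj⟩ := h2 _ hG2
    obtain ⟨b, j', hb, hj', e⟩ := h1 _ hj
    obtain ⟨e1, e2⟩ := opair_inj.1 e
    rw [← e2] at hj'
    obtain ⟨k, hk⟩ := c.std j hj'
    subst hk
    exact ⟨k, G, hG1, hG2, hj⟩
  have hval : ∀ z i : N, E (opair z i) f → ∃ k, i = nu k := by
    intro z i hz
    obtain ⟨b, j', hb, hj', e⟩ := h1 _ hz
    obtain ⟨e1, e2⟩ := opair_inj.1 e
    rw [← e2] at hj'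
    exact c.std i hj'
  obtain ⟨G, hG1, hG2, hG3⟩ := Nat.find_spec hex
  have hmin : ∀ k : ℕ, (∃ G : N, E (opair (nu n) G) D.C ∧ E (opair (nu n) G) D' ∧
      E (opair (opair (nu n) G) (nu k)) f) → Nat.find hex ≤ k := fun k hk =>
    Nat.find_min' hex hk
  refine ⟨G, ⟨?_, ?_⟩, (hC n G).1 hG1⟩
  · rw [pairIn_iff, hmem]
    refine ⟨hG1, hG2, nu n, G, nu (Nat.find hex), rfl, hG3, ?_⟩
    intro G' i' hc hd hf hlt
    obtain ⟨k, hk⟩ := hval _ _ hf
    subst hk
    rw [hnlt] at hlt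
    have := hmin k ⟨G', hc, hd, hf⟩
    omega
  · intro G' hG'
    rw [pairIn_iff, hmem] at hG'
    obtain ⟨hc, hd, v, G'', i, e, hf, hm⟩ := hG'
    obtain ⟨e1, e2⟩ := opair_inj.1 e
    subst e1
    subst e2
    obtain ⟨k, hk⟩ := hval _ _ hf
    subst hk
    have h5 := hm G (nu (Nat.find hex)) hG1 hG2 hG3
    rw [hnlt] at h5
    have h6 := hmin k ⟨G', hc, hd, hf⟩
    have h7 : k = Nat.find hex := by omega
    rw [h7] at hf
    exact (opair_inj.1 (h4 _ _ _ hf hG3)).2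

end CUR
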